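import Pool.Agent.H626Z.FreeMAP.Main

set_option autoImplicit false

namespace Pool.Agent.Results.MP_557517_an.AMetricAP

open Pool.Agent.H626Z.FreeMAP

/-- For `0 < p ≤ 1` the Lipschitz free `p`-space over a countable proper metric space has the
metric approximation property. -/
theorem result (K : Type*) [MetricSpace K] [ProperSpace K] [Countable K] (x0 : K) (p : ℝ)
    (hp : 0 < p) (hp1 : p ≤ 1) : HasMAP p x0 :=
  hasMAP hp hp1

end Pool.Agent.Results.MP_557517_an.AMetricAP
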